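import Mathlib
import Pool.Agent.WFS.Lag2

namespace Pool.Agent.Results.MP_be1be6_an.LagTwo

/-- `A` is shift equivalent over the nonnegative integers to the `1 × 1` matrix `(n)`. -/
def ShiftEq {k : ℕ} (A : Matrix (Fin k) (Fin k) ℕ) (n : ℕ) : Prop :=
  ∃ ℓ : ℕ, 1 ≤ ℓ ∧ ∃ R : Matrix (Fin k) (Fin 1) ℕ, ∃ S : Matrix (Fin 1) (Fin k) ℕ,
    A ^ ℓ = R * S ∧
    (Matrix.of (fun _ _ => n) : Matrix (Fin 1) (Fin 1) ℕ) ^ ℓ = S * R ∧
    A * R = R * (Matrix.of (fun _ _ => n) : Matrix (Fin 1) (Fin 1) ℕ) ∧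
    S * A = (Matrix.of (fun _ _ => n) : Matrix (Fin 1) (Fin 1) ℕ) * S

/-- `A` is strong shift equivalent over the nonnegative integers to the `1 × 1` matrix `(n)`: a finite
chain of elementary equivalences `X = R S`, `Y = S R` leads from `A` to `(n)`. -/
def StrongShiftEq {k : ℕ} (A : Matrix (Fin k) (Fin k) ℕ) (n : ℕ) : Prop :=
  Relation.TransGen
    (fun X Y : (Σ k : ℕ, Matrix (Fin k) (Fin k) ℕ) =>
      ∃ R : Matrix (Fin X.1) (Fin Y.1) ℕ, ∃ S : Matrix (Fin Y.1) (Fin X.1) ℕ,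
        X.2 = R * S ∧ Y.2 = S * R)
    ⟨k, A⟩ ⟨1, (Matrix.of (fun _ _ => n) : Matrix (Fin 1) (Fin 1) ℕ)⟩

/-- For every subspace `V` of `ℚ^k` there is a `T` such that every `k × k` nonnegative integer matrix
`A` with all entries at least `T`, whose columns lie in `V`, which maps `V` into a line, and which is
shift equivalent to `(n)`, is strong shift equivalent to `(n)`. -/
theorem result (k : ℕ) (V : Submodule ℚ (Fin k → ℚ)) :
    ∃ T : ℕ, ∀ (n : ℕ) (A : Matrix (Fin k) (Fin k) ℕ), 1 ≤ n →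
      (∀ j, (fun i => (A i j : ℚ)) ∈ V) →
      (∃ r : Fin k → ℚ, ∀ x ∈ V, ∃ a : ℚ, (A.map (Nat.cast : ℕ → ℚ)).mulVec x = a • r) →
      (∀ i j, T ≤ A i j) → ShiftEq A n → StrongShiftEq A n := by
  rcases Nat.eq_zero_or_pos k with hk | hk
  · subst hk
    refine ⟨0, fun n A hn _ _ _ hse => ?_⟩
    obtain ⟨v, hv, -⟩ := Pool.Agent.WFS.ev_of_se hn A hse
    exact absurd (funext fun i => i.elim0) hv
  · obtain ⟨T, hT⟩ := Pool.Agent.WFS.lag2_sse hk V
    exact ⟨T, fun n A hn hA hr hAT hse => Pool.Agent.WFS.finish hn A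
      (Pool.Agent.WFS.ev_of_se hn A hse) (hT A hA hr hAT)⟩

end Pool.Agent.Results.MP_be1be6_an.LagTwo
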